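import Pool.Agent.helper36.YB.Spec
import Pool.Agent.helper49.HK.TFO

/-!
# MP_ad8ced_nt, row yb:TFX (port of Pool/Agent/helper49/HK/TFO.lean)
-/

set_option autoImplicit false

open Finset
open Pool.Agent.FI Pool.Agent.HK Pool.Agent.BP
open Pool.Agent.CH (nit rgh ll2)
open Pool.Agent.SK (tr0 Th)

namespace Pool.Agent.YB

/-- The inequality `6 + 4 Re (u + v) + 2 Re (u conj v) ≥ 0` for the logarithms. -/
private theorem TFX_comb {a : ℝ} (ha₀ : 0 ≤ a) (ha₁ : a < 1) {z w : ℂ} (hz : ‖z‖ = 1) (hw : ‖w‖ = 1) :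
    0 ≤ 3 * ((-Complex.log (1 - a)).re + (-Complex.log (1 - a)).re) + 4 * ((-Complex.log (1 - a * z)).re + (-Complex.log (1 - a * w)).re) +
      ((-Complex.log (1 - a * (z * (starRingEnd ℂ) w))).re + (-Complex.log (1 - a * (w * (starRingEnd ℂ) z))).re) := by
  have hn : ∀ y : ℂ, ‖y‖ = 1 → ‖(a : ℂ) * y‖ < 1 := fun y hy => by
    rwa [norm_mul, hy, mul_one, Complex.norm_of_nonneg ha₀]
  have hac₀ : ‖(a : ℂ)‖ < 1 := by
    simp only [Complex.norm_of_nonneg ha₀, ha₁]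
  have hzw : ‖z * (starRingEnd ℂ) w‖ = 1 := by rw [norm_mul, RCLike.norm_conj, hz, hw, mul_one]
  have hwz : ‖w * (starRingEnd ℂ) z‖ = 1 := by rw [norm_mul, RCLike.norm_conj, hz, hw, mul_one]
  have s0 := Complex.hasSum_re <| Complex.hasSum_taylorSeries_neg_log hac₀
  have s1 := Complex.hasSum_re <| Complex.hasSum_taylorSeries_neg_log (hn z hz)
  have s2 := Complex.hasSum_re <| Complex.hasSum_taylorSeries_neg_log (hn w hw)
  have s3 := Complex.hasSum_re <| Complex.hasSum_taylorSeries_neg_log (hn _ hzw)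
  have s4 := Complex.hasSum_re <| Complex.hasSum_taylorSeries_neg_log (hn _ hwz)
  have hs := (((s0.add s0).mul_left 3).add ((s1.add s2).mul_left 4)).add (s3.add s4)
  refine hs.nonneg fun n => ?_
  simp only [← Complex.ofReal_pow, Complex.div_natCast_re, Complex.ofReal_re, mul_pow]
  rw [← map_pow, ← map_pow]
  obtain ⟨u, hu⟩ : ∃ u, u = z ^ n := ⟨_, rfl⟩
  obtain ⟨v, hv⟩ : ∃ v, v = w ^ n := ⟨_, rfl⟩
  rw [← hu, ← hv]
  have hun : u.re ^ 2 + u.im ^ 2 = 1 := by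
    have h1 : ‖u‖ = 1 := by rw [hu, norm_pow, hz, one_pow]
    have h2 := Complex.sq_norm u
    rw [Complex.normSq_apply, h1] at h2
    linarith
  have hvn : v.re ^ 2 + v.im ^ 2 = 1 := by
    have h1 : ‖v‖ = 1 := by rw [hv, norm_pow, hw, one_pow]
    have h2 := Complex.sq_norm v
    rw [Complex.normSq_apply, h1] at h2
    linarith
  rcases n.eq_zero_or_pos with rfl | hn
  · simp
  · have e : 3 * (a ^ n / (n : ℝ) + a ^ n / (n : ℝ)) + 4 * (((((a ^ n : ℝ) : ℂ) * u).re) / (n : ℝ) + ((((a ^ n : ℝ) : ℂ) * v).re) / (n : ℝ))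
        + ((((a ^ n : ℝ) : ℂ) * (u * (starRingEnd ℂ) v)).re / (n : ℝ) + (((a ^ n : ℝ) : ℂ) * (v * (starRingEnd ℂ) u)).re / (n : ℝ))
        = a ^ n * ((2 + u.re + v.re) ^ 2 + (u.im + v.im) ^ 2) / (n : ℝ) := by
      simp only [Complex.mul_re, Complex.ofReal_re, Complex.ofReal_im, Complex.conj_re, Complex.conj_im, zero_mul, sub_zero]
      have h3 : (2 + u.re + v.re) ^ 2 + (u.im + v.im) ^ 2 = 6 + 4 * (u.re + v.re) + 2 * (u.re * v.re + u.im * v.im) := by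
        linear_combination hun + hvn
      rw [h3]
      ring
    refine le_of_le_of_eq ?_ e.symm
    positivity

private theorem TFX_inert {a : ℝ} (ha₀ : 0 ≤ a) (ha₁ : a < 1) {z : ℂ} (hz : ‖z‖ = 1) :
    0 ≤ 3 * (-Complex.log (1 - a)).re + 4 * (-Complex.log (1 - a * z)).re + (-Complex.log (1 - a)).re := by
  rw [Complex.neg_re, Complex.neg_re, Complex.log_re, Complex.log_re]
  have h1 : ‖(1 : ℂ) - a‖ = 1 - a := by
    have : (1 : ℂ) - a = ((1 - a : ℝ) : ℂ) := by push_cast; rfl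
    rw [this, Complex.norm_of_nonneg (by linarith)]
  have h2 : ‖(1 : ℂ) - a * z‖ ≤ 1 + a := by
    refine (norm_sub_le _ _).trans ?_
    rw [norm_one, norm_mul, hz, mul_one, Complex.norm_of_nonneg ha₀]
  have h3 : 1 - a ≤ ‖(1 : ℂ) - a * z‖ := by
    have h4 := norm_sub_norm_le (1 : ℂ) (a * z)
    rwa [norm_one, norm_mul, hz, mul_one, Complex.norm_of_nonneg ha₀] at h4
  have h5 : Real.log ‖(1 : ℂ) - a * z‖ ≤ Real.log (1 + a) := Real.log_le_log (by linarith) h2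
  have h6 : Real.log (1 - a) + Real.log (1 + a) ≤ 0 := by
    rw [← Real.log_mul (by linarith) (by linarith)]
    apply Real.log_nonpos
    · nlinarith
    · nlinarith
  rw [h1]
  linarith

theorem TFX : TFX_stmt := by
  intro k₁ k₂ g₁ g₂ h₁ h₂ hk₁ hk₂ hg₁ hg₂ hh₁ hh₂ hT x t hx
  have r0 : 1 < (1 + (x : ℂ)).re := by simp [hx]
  have r1 : 1 < (1 + (x : ℂ) + Complex.I * t).re := by simp [hx]
  obtain ⟨S0, s0, n0⟩ := TFO_norm hk₁ hk₂ r0
  obtain ⟨S1, s1, n1⟩ := TFO_norm hg₁ hg₂ r1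
  obtain ⟨S2, s2, n2⟩ := TFO_norm hh₁ hh₂ r0
  rw [n0, n1, n2, ← Real.exp_nat_mul, ← Real.exp_nat_mul, ← Real.exp_add, ← Real.exp_add]
  rw [Real.one_le_exp_iff]
  have hs := ((s0.mul_left 3).add (s1.mul_left 4)).add s2
  have hpos : 0 ≤ 3 * S0 + 4 * S1 + S2 := by
    refine hs.nonneg fun p => ?_
    have hp2 : 2 ≤ (p : ℕ) := p.2.two_le
    have hp0 : (0 : ℝ) < (p : ℕ) := by exact_mod_cast p.2.pos
    have hpc : ((p : ℕ) : ℂ) ≠ 0 := by exact_mod_cast p.2.ne_zero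
    obtain ⟨a, ha⟩ : ∃ a : ℝ, a = ((p : ℕ) : ℝ) ^ (-(1 + x)) := ⟨_, rfl⟩
    obtain ⟨z, hz⟩ : ∃ z : ℂ, z = ((p : ℕ) : ℂ) ^ (-(Complex.I * t)) := ⟨_, rfl⟩
    have ha0 : 0 ≤ a := by rw [ha]; exact Real.rpow_nonneg hp0.le _
    have ha1 : a < 1 := by
      rw [ha, Real.rpow_neg hp0.le, inv_lt_one_iff₀]
      right
      exact Real.one_lt_rpow (by exact_mod_cast p.2.one_lt) (by linarith)
    have hz1 : ‖z‖ = 1 := by
      rw [hz, Complex.norm_natCast_cpow_of_pos p.2.pos]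
      simp
    have c0 : ((p : ℕ) : ℂ) ^ (-(1 + (x : ℂ))) = (a : ℂ) := by
      rw [ha, Complex.ofReal_cpow hp0.le]
      push_cast
      rfl
    have c1 : ((p : ℕ) : ℂ) ^ (-(1 + (x : ℂ) + Complex.I * t)) = a * z := by
      rw [neg_add, Complex.cpow_add _ _ hpc, c0, hz]
    rw [c0, c1]
    have hna : ‖(a : ℂ)‖ < 1 := by rwa [Complex.norm_of_nonneg ha0]
    have hzz : z * (starRingEnd ℂ) z = 1 := by
      rw [Complex.mul_conj', hz1]; norm_num
    rcases hT p p.2 with ⟨e1, e2, e3, e4, e5, e6⟩ | ⟨e1, e2, e3, e4, e5, e6⟩ | ⟨e1, e2, e3, e4, e5, e6⟩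
    · rw [e1, e2, e5, e6]
      have q1 := TFX_comb ha0 ha1 (z := g₁ p * z) (w := g₂ p * z) (by rw [norm_mul, e3, hz1, mul_one]) (by rw [norm_mul, e4, hz1, mul_one])
      have u1 : g₁ p * ((a : ℂ) * z) = (a : ℂ) * (g₁ p * z) := by ring
      have u2 : g₂ p * ((a : ℂ) * z) = (a : ℂ) * (g₂ p * z) := by ring
      have u3 : g₁ p * (starRingEnd ℂ) (g₂ p) * (a : ℂ) = (a : ℂ) * (g₁ p * z * (starRingEnd ℂ) (g₂ p * z)) := by
        rw [map_mul]
        linear_combination (-(a : ℂ) * g₁ p * (starRingEnd ℂ) (g₂ p)) * hzz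
      have u4 : g₂ p * (starRingEnd ℂ) (g₁ p) * (a : ℂ) = (a : ℂ) * (g₂ p * z * (starRingEnd ℂ) (g₁ p * z)) := by
        rw [map_mul]
        linear_combination (-(a : ℂ) * g₂ p * (starRingEnd ℂ) (g₁ p)) * hzz
      rw [one_mul, u1, u2, u3, u4]
      exact q1
    · have hw : ‖g₁ p * ((a : ℂ) * z)‖ < 1 := by rwa [norm_mul, norm_mul, e3, hz1, one_mul, mul_one]
      have e7 : g₂ p * ((a : ℂ) * z) = (-1) * (g₁ p * ((a : ℂ) * z)) := by rw [e4]; ring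
      have e8 : g₁ p * ((a : ℂ) * z) = 1 * (g₁ p * ((a : ℂ) * z)) := by ring
      have p1 := TFO_pair hna
      have p2 := TFO_pair hw
      rw [e1, e2, e5, e6, p1, e7]
      rw [← e8] at p2
      rw [p2]
      have q1 := TFX_inert (a := a ^ 2) (by positivity) (by nlinarith) (z := (g₁ p * z) ^ 2)
        (by rw [norm_pow, norm_mul, e3, hz1, one_mul, one_pow])
      have u1 : (g₁ p * ((a : ℂ) * z)) ^ 2 = ((a ^ 2 : ℝ) : ℂ) * (g₁ p * z) ^ 2 := by
        push_cast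
        ring
      have u3 : (a : ℂ) ^ 2 = ((a ^ 2 : ℝ) : ℂ) := by push_cast; rfl
      rw [u1, u3]
      exact q1
    · rw [e1, e2, e3, e4, e5, e6]
      simp
  exact_mod_cast hpos

end Pool.Agent.YB
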